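import Pool.Graph.R_seed8.Results.MP_0634a4_nt.PowerSumRatios
import Pool.Agent.KS7_53.Psum.Crit

/-!
# Integrality of power-sum ratios for `l`-sequences: the exact criterion

Part (a) of Q1 is true: `P_{n,k}` and `R_{n,k}` are integers for all `l ≥ 2` and `n, k ≥ 1`
(earlier result).  Part (b) is false, and this file determines exactly when `T_{n,k}` (`l = 2`) is an
integer: if and only if every prime `q ≥ 5` which divides `n (n+1)` and with `q - 1 ∣ 12 k - 10`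
divides `12 k - 9`.  More generally, for every odd `m ≥ 3`, the number `1^m + ... + n^m` is
divisible by `1^3 + ... + n^3` if and only if every odd prime `q` which divides `n (n+1)` and with
`q - 1 ∣ m - 1` divides `m`.

Proof: let `q^a` be the exact power of `q` in `n` or `n + 1`, `N = n` or `n + 1`.  The reflection
`i → N - i` gives `2 ∑ i^m = m N ∑ i^(m-1)` modulo `N²`, and `∑_{i < q^a} i^(m-1)` modulo `q^a` is
`-q^(a-1)` or `0`.
-/

open Finset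

namespace Pool.Agent.Results.MP_0634a4_nt.ExactCriterion

/-- the `l`-sequence: `u_0 = 0`, `u_1 = 1`, `u_m = l u_{m-1} - u_{m-2}` -/
def u (l : ℤ) : ℕ → ℤ
  | 0 => 0
  | 1 => 1
  | (m + 2) => l * u l (m + 1) - u l m

/-- the tail sum `S_k(j,n) = ∑_{i=j}^n u_i^(2k-1)` -/
def S (l : ℤ) (k j n : ℕ) : ℤ := ∑ i ∈ Icc j n, u l i ^ (2 * k - 1)

/-- `P_{n,k} = ∏_{j=1}^n S_k(j,n) / u_j` -/
def P (l : ℤ) (n k : ℕ) : ℚ := ∏ j ∈ Icc 1 n, (S l k j n : ℚ) / (u l j : ℚ)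

/-- `R_{n,k} = S_k(1,n) / S_1(1,n)` -/
def R (l : ℤ) (n k : ℕ) : ℚ := (S l k 1 n : ℚ) / (S l 1 1 n : ℚ)

/-- `T_{n,k} = (∑_{i=1}^n u_i^(3(4k-3))) / (∑_{i=1}^n u_i^3)` -/
def T (l : ℤ) (n k : ℕ) : ℚ :=
  (∑ i ∈ Icc 1 n, (u l i : ℚ) ^ (3 * (4 * k - 3))) / ∑ i ∈ Icc 1 n, (u l i : ℚ) ^ 3

theorem u_two (n : ℕ) : u 2 n = n := by
  induction n using Nat.twoStepInduction with
  | zero => rfl
  | one => rfl
  | more n ih1 ih2 => rw [u, ih1, ih2]; push_cast; ring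

theorem u_same (l : ℤ) (n : ℕ) : PowerSumRatios.u l n = u l n := by
  induction n using Nat.twoStepInduction with
  | zero => rfl
  | one => rfl
  | more n ih1 ih2 => rw [u, PowerSumRatios.u, ih1, ih2]

theorem S_same (l : ℤ) (k j n : ℕ) : PowerSumRatios.S l k j n = S l k j n := by
  rw [S, PowerSumRatios.S]; simp only [u_same]

theorem int_iff {a b : ℤ} (hb : b ≠ 0) : (∃ z : ℤ, (a : ℚ) / (b : ℚ) = z) ↔ b ∣ a := by
  have hb' : (b : ℚ) ≠ 0 := by exact_mod_cast hb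
  constructor
  · rintro ⟨z, hz⟩
    refine ⟨z, ?_⟩
    rw [div_eq_iff hb'] at hz
    have : (a : ℚ) = ((z * b : ℤ) : ℚ) := by rw [hz]; push_cast; ring
    have h2 : a = z * b := by exact_mod_cast this
    rw [h2]; ring
  · rintro ⟨z, rfl⟩
    refine ⟨z, ?_⟩
    push_cast
    field_simp

theorem Q3_ne {n : ℕ} (hn : 1 ≤ n) : KS7_53.Psum.Q 3 n ≠ 0 := by
  have h : KS7_53.Psum.Q 1 n ≠ 0 := by
    intro h
    have h1 := KS7_53.Psum.Q_one n
    rw [h] at h1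
    have : (0 : ℤ) < n * (n + 1) := by positivity
    omega
  rw [KS7_53.Psum.Q_three]
  exact pow_ne_zero _ h

theorem T_iff {n k : ℕ} (hn : 1 ≤ n) (hk : 1 ≤ k) : (∃ z : ℤ, T 2 n k = z) ↔
    ∀ q : ℕ, q.Prime → 5 ≤ q → q ∣ n * (n + 1) → (q - 1) ∣ 12 * k - 10 → q ∣ 12 * k - 9 := by
  have hm : 3 * (4 * k - 3) = 12 * k - 9 := by omega
  have e1 : T 2 n k = ((KS7_53.Psum.Q (12 * k - 9) n : ℤ) : ℚ) / ((KS7_53.Psum.Q 3 n : ℤ) : ℚ) := by
    rw [T, KS7_53.Psum.Q, KS7_53.Psum.Q, hm]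
    push_cast
    simp only [u_two]
    push_cast
    rfl
  rw [e1, int_iff (Q3_ne hn), KS7_53.Psum.criterion (by rw [Nat.odd_iff]; omega) (by omega) hn]
  have hm1 : 12 * k - 9 - 1 = 12 * k - 10 := by omega
  rw [hm1]
  constructor
  · intro h q hq h5
    exact h q hq (by omega)
  · intro h q hq h2 hd hd1
    rcases Nat.lt_or_ge q 5 with h5 | h5
    · have h2' := hq.two_le
      interval_cases q
      · exact absurd rfl h2
      · omega
      · exact absurd hq (by norm_num)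
    · exact h q hq h5 hd hd1

/-- **Complete answer to Q1.**  Part (a) holds.  For `l = 2` the number `T_{n,k}` is an integer if
and only if every prime `q ≥ 5` with `q ∣ n (n+1)` and `q - 1 ∣ 12 k - 10` divides `12 k - 9`; so it
is an integer for all `n` if and only if every prime `q ≥ 5` with `q - 1 ∣ 12 k - 10` divides
`12 k - 9`.  More generally, for odd `m ≥ 3` the quotient of `1^m + ... + n^m` by
`1^3 + ... + n^3` is an integer if and only if every odd prime `q` with `q ∣ n (n+1)` and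
`q - 1 ∣ m - 1` divides `m`. -/
theorem result :
    (∀ l : ℤ, 2 ≤ l → ∀ n k : ℕ, 1 ≤ n → 1 ≤ k →
      (∃ z : ℤ, P l n k = z) ∧ ∃ z : ℤ, R l n k = z) ∧
    (∀ n k : ℕ, 1 ≤ n → 1 ≤ k → ((∃ z : ℤ, T 2 n k = z) ↔
      ∀ q : ℕ, q.Prime → 5 ≤ q → q ∣ n * (n + 1) → (q - 1) ∣ 12 * k - 10 → q ∣ 12 * k - 9)) ∧
    (∀ k : ℕ, 1 ≤ k → ((∀ n : ℕ, 1 ≤ n → ∃ z : ℤ, T 2 n k = z) ↔
      ∀ q : ℕ, q.Prime → 5 ≤ q → (q - 1) ∣ 12 * k - 10 → q ∣ 12 * k - 9)) ∧
    (∀ m n : ℕ, Odd m → 3 ≤ m → 1 ≤ n →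
      ((∃ z : ℤ, (∑ i ∈ Icc 1 n, (i : ℚ) ^ m) / ∑ i ∈ Icc 1 n, (i : ℚ) ^ 3 = z) ↔
        ∀ q : ℕ, q.Prime → q ≠ 2 → q ∣ n * (n + 1) → (q - 1) ∣ (m - 1) → q ∣ m)) := by
  refine ⟨fun l hl n k hn hk => ?_, fun n k hn hk => T_iff hn hk, fun k hk => ⟨fun h q hq h5 hd => ?_,
    fun h n hn => ?_⟩, fun m n hm h3 hn => ?_⟩
  · have h := PowerSumRatios.result.1 l hl n k hn hk
    simp only [PowerSumRatios.P, PowerSumRatios.R, S_same, u_same] at h
    exact h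
  · exact (T_iff (by have := hq.two_le; omega) hk).1 (h q (by have := hq.two_le; omega)) q hq h5
      (Dvd.intro _ rfl) hd
  · exact (T_iff hn hk).2 fun q hq h5 _ hd => h q hq h5 hd
  · rw [← KS7_53.Psum.criterion hm h3 hn, ← int_iff (Q3_ne hn)]
    rw [KS7_53.Psum.Q, KS7_53.Psum.Q]
    push_cast
    rfl

end Pool.Agent.Results.MP_0634a4_nt.ExactCriterion
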